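import Pool.Agent.helper95.SP.Main

/-!
# The spectral sample and the pivotal set of critical percolation have mutually singular scaling limits

The model (`pos`, `Adj`, `sites`, `Config`, `Crossing`, `f`, `fhat`, `pivotal`, `unitSquare`, `scaled`)
is in `Pool/Agent/helper82/SW/Model.lean`, the definitions `SpectralLimitAlong` and `PivotalLimitAlong`
are in `Pool/Agent/helper82/SW/Final.lean`.
-/

namespace Pool.Agent.Results.MP_7800de_pr.MutuallySingular

open MeasureTheory Filter Topology TopologicalSpace SpectralPivotal

/-- The law `μ` of the scaling limit of the spectral sample and the law `ν` of the scaling limit of the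
pivotal set are mutually singular: there is a Borel set `A` of compact sets with `μ A = 1` and `ν A = 0`.
Here both limits are taken along the same sequence of sizes `φ k → ∞`, which has to contain infinitely
many powers of two; the limits as `n → ∞` are the case `φ n = n`. -/
theorem result [MeasurableSpace (Compacts unitSquare)] [BorelSpace (Compacts unitSquare)]
    (φ : ℕ → ℕ) (hφ : Tendsto φ atTop atTop) (hp : ∃ᶠ k in atTop, ∃ i, φ k = 2 ^ i)
    (μ ν : Measure (Compacts unitSquare)) [IsProbabilityMeasure μ] [IsProbabilityMeasure ν]
    (hμ : SpectralLimitAlong φ μ) (hν : PivotalLimitAlong φ ν) :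
    μ ⟂ₘ ν ∧ ∃ A : Set (Compacts unitSquare), MeasurableSet A ∧ μ A = 1 ∧ ν A = 0 :=
  Pool.Agent.helper95.SPM.main_singular φ hφ hp μ ν hμ hν

end Pool.Agent.Results.MP_7800de_pr.MutuallySingular
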